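import Pool.Agent.H11.EL.Targets

/-!
# Module BM of MP_0b603e_al: `BB` is multiplicative in its first pair of arguments
-/

set_option autoImplicit false

open scoped commutatorElement

namespace Pool.Agent.H33.EL

open Pool.Agent.H11.EL

section

variable {G : Type} [Group G]

/-- a central valued function on pairs which is multiplicative on `M` -/
private def Bil (M : Subgroup G) (f : G → G → G) : Prop :=
  (∀ x ∈ M, ∀ y ∈ M, ∀ g : G, f x y * g = g * f x y) ∧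
    ∀ x ∈ M, ∀ y ∈ M, ∀ u ∈ M, ∀ v ∈ M, f (x * u) (y * v) = f x y * f u v

private theorem Bil.mul {M : Subgroup G} {f g : G → G → G} (hf : Bil M f) (hg : Bil M g) :
    Bil M (fun x y => f x y * g x y) := by
  refine ⟨fun x hx y hy h => ?_, fun x hx y hy u hu v hv => ?_⟩
  · change f x y * g x y * h = h * (f x y * g x y)
    rw [mul_assoc, hg.1 x hx y hy h, ← mul_assoc, hf.1 x hx y hy h, mul_assoc]
  · change f (x * u) (y * v) * g (x * u) (y * v) = f x y * g x y * (f u v * g u v)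
    rw [hf.2 x hx y hy u hu v hv, hg.2 x hx y hy u hu v hv, mul_assoc, mul_assoc,
      ← mul_assoc (f u v), hf.1 u hu v hv (g x y), mul_assoc]

private theorem Bil.congr {M : Subgroup G} {f g : G → G → G} (hf : Bil M f)
    (h : ∀ x ∈ M, ∀ y ∈ M, g x y = f x y) : Bil M g := by
  refine ⟨fun x hx y hy k => ?_, fun x hx y hy u hu v hv => ?_⟩
  · rw [h x hx y hy]
    exact hf.1 x hx y hy k
  · rw [h _ (M.mul_mem hx hu) _ (M.mul_mem hy hv), h x hx y hy, h u hu v hv]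
    exact hf.2 x hx y hy u hu v hv

private theorem com_mul {M : Subgroup G} (hc : ∀ x ∈ M, ∀ y ∈ M, ∀ g : G, ⁅x, y⁆ * g = g * ⁅x, y⁆)
    {p q r : G} (hp : p ∈ M) (hr : r ∈ M) : ⁅p, q * r⁆ = ⁅p, q⁆ * ⁅p, r⁆ := by
  have e : ⁅p, q * r⁆ = ⁅p, q⁆ * (q * ⁅p, r⁆ * q⁻¹) := by
    simp only [commutatorElement_def]
    group
  rw [e, ← hc p hp r hr q, mul_inv_cancel_right]

private theorem bil_y {M : Subgroup G} (hM : M.Normal)
    (hc : ∀ x ∈ M, ∀ y ∈ M, ∀ g : G, ⁅x, y⁆ * g = g * ⁅x, y⁆) {p : G} (hp : p ∈ M) (h : G) :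
    Bil M (fun _ y => ⁅p, h * y * h⁻¹⁆) := by
  refine ⟨fun x hx y hy g => hc p hp _ (hM.conj_mem _ hy _) g, fun x hx y hy u hu v hv => ?_⟩
  change ⁅p, h * (y * v) * h⁻¹⁆ = ⁅p, h * y * h⁻¹⁆ * ⁅p, h * v * h⁻¹⁆
  have e : h * (y * v) * h⁻¹ = (h * y * h⁻¹) * (h * v * h⁻¹) := by group
  rw [e, com_mul hc hp (hM.conj_mem _ hv _)]

private theorem bil_x {M : Subgroup G} (hM : M.Normal)
    (hc : ∀ x ∈ M, ∀ y ∈ M, ∀ g : G, ⁅x, y⁆ * g = g * ⁅x, y⁆) {p : G} (hp : p ∈ M) (h : G) :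
    Bil M (fun x _ => ⁅p, h * x * h⁻¹⁆) :=
  ⟨fun x hx y hy g => (bil_y hM hc hp h).1 y hy x hx g,
    fun x hx y hy u hu v hv => (bil_y hM hc hp h).2 y hy x hx v hv u hu⟩

private theorem bil_yi {M : Subgroup G} (hM : M.Normal)
    (hc : ∀ x ∈ M, ∀ y ∈ M, ∀ g : G, ⁅x, y⁆ * g = g * ⁅x, y⁆) {p : G} (hp : p ∈ M) (h : G) :
    Bil M (fun _ y => ⁅p, h * y⁻¹ * h⁻¹⁆) := by
  refine ⟨fun x hx y hy g => hc p hp _ (hM.conj_mem _ (M.inv_mem hy) _) g,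
    fun x hx y hy u hu v hv => ?_⟩
  change ⁅p, h * (y * v)⁻¹ * h⁻¹⁆ = ⁅p, h * y⁻¹ * h⁻¹⁆ * ⁅p, h * v⁻¹ * h⁻¹⁆
  have e : h * (y * v)⁻¹ * h⁻¹ = (h * v⁻¹ * h⁻¹) * (h * y⁻¹ * h⁻¹) := by group
  rw [e, com_mul hc hp (hM.conj_mem _ (M.inv_mem hy) _)]
  exact hc p hp _ (hM.conj_mem _ (M.inv_mem hv) _) _

private theorem bil_xi {M : Subgroup G} (hM : M.Normal)
    (hc : ∀ x ∈ M, ∀ y ∈ M, ∀ g : G, ⁅x, y⁆ * g = g * ⁅x, y⁆) {p : G} (hp : p ∈ M) (h : G) :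
    Bil M (fun x _ => ⁅p, h * x⁻¹ * h⁻¹⁆) :=
  ⟨fun x hx y hy g => (bil_yi hM hc hp h).1 y hy x hx g,
    fun x hx y hy u hu v hv => (bil_yi hM hc hp h).2 y hy x hx v hv u hu⟩

private theorem bil_th {M : Subgroup G} (hM : M.Normal)
    (hc : ∀ x ∈ M, ∀ y ∈ M, ∀ g : G, ⁅x, y⁆ * g = g * ⁅x, y⁆) {p : G} (hp : p ∈ M) (h a b : G) :
    Bil M (fun x y => ⁅p, h * th a b x y * h⁻¹⁆) := by
  have key := ((bil_x hM hc hp h).mul (bil_y hM hc hp (h * a))).mul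
    ((bil_xi hM hc hp (h * (a * b * a⁻¹))).mul (bil_yi hM hc hp (h * ⁅a, b⁆)))
  refine key.congr (fun x hx y hy => ?_)
  have e : h * th a b x y * h⁻¹ = h * x * h⁻¹ * ((h * a) * y * (h * a)⁻¹) *
      (((h * (a * b * a⁻¹)) * x⁻¹ * (h * (a * b * a⁻¹))⁻¹) *
        ((h * ⁅a, b⁆) * y⁻¹ * (h * ⁅a, b⁆)⁻¹)) := by
    unfold th
    generalize ⁅a, b⁆ = k
    group
  have m2 : (h * a) * y * (h * a)⁻¹ ∈ M := hM.conj_mem _ hy _
  have m3 : (h * (a * b * a⁻¹)) * x⁻¹ * (h * (a * b * a⁻¹))⁻¹ ∈ M :=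
    hM.conj_mem _ (M.inv_mem hx) _
  have m4 : (h * ⁅a, b⁆) * y⁻¹ * (h * ⁅a, b⁆)⁻¹ ∈ M := hM.conj_mem _ (M.inv_mem hy) _
  rw [e, com_mul hc hp (M.mul_mem m3 m4), com_mul hc hp m2, com_mul hc hp m4]

private theorem bil_be {M : Subgroup G} (hM : M.Normal)
    (hc : ∀ x ∈ M, ∀ y ∈ M, ∀ g : G, ⁅x, y⁆ * g = g * ⁅x, y⁆) (a b : G) {x' y' : G}
    (hx' : x' ∈ M) (hy' : y' ∈ M) : Bil M (fun x y => be a b x y x' y') := by
  have mP : x' * (a * y' * a⁻¹) * (a * b * a⁻¹ * x'⁻¹ * (a * b * a⁻¹)⁻¹) ∈ M :=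
    M.mul_mem (M.mul_mem hx' (hM.conj_mem _ hy' _)) (hM.conj_mem _ (M.inv_mem hx') _)
  exact ((bil_y hM hc hx' a).mul (bil_xi hM hc mP (a * b * a⁻¹))).mul
    (bil_yi hM hc (th_mem hM hx' hy') ⁅a, b⁆)

end

/-- module BM -/
theorem pf_bm : T_BM := by
  intro G _ M hM hc n a b x y u v x' y' hx hy hu hv hx' hy'
  induction n with
  | zero => simp
  | succ n ih =>
    have hT : Th n a b x' y' ∈ M := Th_mem hM (fun i _ => hx' i) (fun i _ => hy' i)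
    have key := (bil_be hM hc (a n) (b n) (hx' n) (hy' n)).mul
      (bil_th hM hc hT (cp n a b) (a n) (b n))
    have h1 := key.2 (x n) (hx n) (y n) (hy n) (u n) (hu n) (v n) (hv n)
    have h2 := key.1 (x n) (hx n) (y n) (hy n) (BB n a b u v x' y')
    simp only at h1 h2
    rw [BB_succ, BB_succ, BB_succ, ih, h1]
    generalize be (a n) (b n) (x n) (y n) (x' n) (y' n) *
      ⁅Th n a b x' y', cp n a b * th (a n) (b n) (x n) (y n) * (cp n a b)⁻¹⁆ = s at h2 ⊢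
    generalize be (a n) (b n) (u n) (v n) (x' n) (y' n) *
      ⁅Th n a b x' y', cp n a b * th (a n) (b n) (u n) (v n) * (cp n a b)⁻¹⁆ = t
    rw [mul_assoc, mul_assoc, ← mul_assoc (BB n a b u v x' y'), ← h2, mul_assoc]

end Pool.Agent.H33.EL
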