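import Pool.Agent.H11.EL.Targets

/-!
# Module ND of MP_0b603e_al: non-degeneracy of the bilinear form `BB`
-/

set_option autoImplicit false

open scoped commutatorElement

namespace Pool.Agent.H33.EL

open Pool.Agent.H11.EL

section

variable {G : Type} [Group G]

private theorem th_one (a b : G) : th a b 1 1 = 1 := by
  unfold th
  generalize ⁅a, b⁆ = k
  group

private theorem be_one (a b x' y' : G) : be a b 1 1 x' y' = 1 := by
  unfold be
  have e1 : a * 1 * a⁻¹ = 1 := by group
  have e2 : a * b * a⁻¹ * 1⁻¹ * (a * b * a⁻¹)⁻¹ = 1 := by group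
  have e3 : ⁅a, b⁆ * 1⁻¹ * ⁅a, b⁆⁻¹ = 1 := by
    generalize ⁅a, b⁆ = k
    group
  rw [e1, e2, e3, commutatorElement_one_right, commutatorElement_one_right,
    commutatorElement_one_right, one_mul, one_mul]

private theorem th_central {a b x y : G} (hx : ∀ g : G, x * g = g * x)
    (hy : ∀ g : G, y * g = g * y) : th a b x y = 1 := by
  have hxi : ∀ g : G, x⁻¹ * g = g * x⁻¹ := fun g => by
    have h1 := congrArg (fun t => x⁻¹ * t * x⁻¹) (hx g)
    have e1 : x⁻¹ * (x * g) * x⁻¹ = g * x⁻¹ := by group
    have e2 : x⁻¹ * (g * x) * x⁻¹ = x⁻¹ * g := by group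
    rw [e1, e2] at h1
    exact h1.symm
  have hyi : ∀ g : G, y⁻¹ * g = g * y⁻¹ := fun g => by
    have h1 := congrArg (fun t => y⁻¹ * t * y⁻¹) (hy g)
    have e1 : y⁻¹ * (y * g) * y⁻¹ = g * y⁻¹ := by group
    have e2 : y⁻¹ * (g * y) * y⁻¹ = y⁻¹ * g := by group
    rw [e1, e2] at h1
    exact h1.symm
  unfold th
  have e1 : a * y * a⁻¹ = y := by
    rw [← hy a]
    group
  have e2 : a * b * a⁻¹ * x⁻¹ * (a * b * a⁻¹)⁻¹ = x⁻¹ := by
    rw [← hxi (a * b * a⁻¹)]
    group
  have e3 : ⁅a, b⁆ * y⁻¹ * ⁅a, b⁆⁻¹ = y⁻¹ := by
    rw [← hyi ⁅a, b⁆, mul_inv_cancel_right]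
  rw [e1, e2, e3, hx y]
  group

private theorem Th_central {n : ℕ} {a b x y : ℕ → G} (hx : ∀ i < n, ∀ g : G, x i * g = g * x i)
    (hy : ∀ i < n, ∀ g : G, y i * g = g * y i) : Th n a b x y = 1 := by
  induction n with
  | zero => rfl
  | succ n ih =>
    rw [Th_succ, ih (fun i hi => hx i (by omega)) (fun i hi => hy i (by omega)),
      th_central (hx n (by omega)) (hy n (by omega))]
    group

end

/-- module ND -/
theorem pf_nd : T_NE → T_ND := by
  intro NE G _ M Z D hM hZ hZM hc hz hr n a b x' y' hx' hy' h i
  induction i using Nat.strong_induction_on with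
  | _ i ih =>
    intro hi
    have hlt : ∀ j < i, x' j ∈ Z ∧ y' j ∈ Z := fun j hj => ih j hj (by omega)
    have hTh : Th i a b x' y' = 1 :=
      Th_central (fun j hj g => hz _ (hlt j hj).1 g) (fun j hj g => hz _ (hlt j hj).2 g)
    refine NE G M Z D hM hZ hZM hc hz hr (a i) (b i) (x' i) (y' i) (hx' i) (hy' i)
      (fun x hx y hy => ?_)
    have key : ∀ m : ℕ, BB m a b (fun j => if j = i then x else 1)
        (fun j => if j = i then y else 1) x' y' =
        if i < m then be (a i) (b i) x y (x' i) (y' i) else 1 := by
      intro m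
      induction m with
      | zero => simp
      | succ m ihm =>
        rw [BB_succ, ihm]
        rcases lt_trichotomy i m with hlt | heq | hgt
        · have hne : ¬ m = i := by omega
          rw [if_pos hlt, if_pos (show i < m + 1 by omega)]
          simp only [if_neg hne]
          rw [be_one, th_one]
          have e1 : cp m a b * 1 * (cp m a b)⁻¹ = 1 := by group
          rw [e1, commutatorElement_one_right, one_mul, mul_one]
        · subst heq
          rw [if_neg (lt_irrefl i), if_pos (Nat.lt_succ_self i)]
          simp only [if_true]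
          rw [hTh, commutatorElement_one_left, mul_one, one_mul]
        · have hne : ¬ m = i := by omega
          rw [if_neg (show ¬ i < m by omega), if_neg (show ¬ i < m + 1 by omega)]
          simp only [if_neg hne]
          rw [be_one, th_one]
          have e1 : cp m a b * 1 * (cp m a b)⁻¹ = 1 := by group
          rw [e1, commutatorElement_one_right, one_mul, mul_one]
    have h1 := h (fun j => if j = i then x else 1) (fun j => if j = i then y else 1)
      (fun j => by
        by_cases hj : j = i
        · simp only [if_pos hj]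
          exact hx
        · simp only [if_neg hj]
          exact M.one_mem)
      (fun j => by
        by_cases hj : j = i
        · simp only [if_pos hj]
          exact hy
        · simp only [if_neg hj]
          exact M.one_mem)
    rw [key n, if_pos hi] at h1
    exact h1

end Pool.Agent.H33.EL
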