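import Pool.Agent.H91.EL.Targets

/-!
Row THR of elm_modules: three good walks with separated last directions.
-/

set_option autoImplicit false

namespace Pool.Agent.H33.EL

open Pool.Agent.H83.G Pool.Agent.H91.EL
open scoped RealInnerProductSpace

theorem pf_THR (hMUL : T_MUL) : T_THR := by
  classical
  obtain ⟨CM, hCM, h⟩ := hMUL
  intro C₁ hC₁
  have hCC : 1 ≤ C₁ * CM := one_le_mul_of_one_le_of_one_le hC₁ hCM
  refine ⟨4 * (C₁ * CM), by linarith, ?_⟩
  intro ι ρ D K r X P η I hcf hr0 hr1 hCD hCK a x hW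
  have hD := hcf.one_le_D
  have hDK := hcf.D_le_K
  have hKρ := hcf.K_le
  have hρ : 1 ≤ ρ := by linarith
  have hK0 : 0 < K := by linarith
  have hD0 : 0 < D := by linarith
  have hρ0 : 0 < ρ := by linarith
  have hCM4 : CM ≤ 4 * (C₁ * CM) := by nlinarith
  have hMD : CM * D ≤ r ^ 4 * ρ := (mul_le_mul_of_nonneg_right hCM4 hD0.le).trans hCD
  set C2 := C₁ * CM with hC2
  have hC20 : 0 < C2 := by linarith
  set S : Finset ι := (Wax ρ r X P η I a x).image (fun t => t.2.2) with hS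
  -- fibres
  have hfib : ∀ p' ∈ S, (((Wax ρ r X P η I a x).filter fun t => t.2.2 = p').card : ℝ) ≤
      CM * D ^ 7 * ρ ^ 2 / r ^ 12 := by
    intro p' _
    have h1 := h ι ρ D K r X P η I hcf hr0 hr1 hMD x p' a
      (((Wax ρ r X P η I a x).filter fun t => t.2.2 = p').image fun t => (t.2.1, t.1)) (by
        intro u hu
        obtain ⟨t, ht, rfl⟩ := Finset.mem_image.1 hu
        have ht1 := Finset.mem_filter.1 ht
        have ht2 := (Finset.mem_filter.1 ht1.1).2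
        have ht3 : t.2.2 = p' := ht1.2
        rw [ht3] at ht2
        exact { ha := ht2.hx, hp := ht2.hp', hy := ht2.hy, hp' := ht2.hp, hx := ht2.ha,
                Iap := ht2.Ixp', Iyp := ht2.Iyp', Iyp' := ht2.Iyp, Ixp' := ht2.Iap,
                w2 := by rw [abs_sub_comm]; exact ht2.w1,
                ang := by rw [norm_sub_rev]; exact ht2.ang })
    rw [Finset.card_image_of_injOn] at h1
    · exact h1
    · intro t ht t' ht' hE
      have e1 := (Finset.mem_filter.1 (Finset.mem_coe.1 ht)).2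
      have e2 := (Finset.mem_filter.1 (Finset.mem_coe.1 ht')).2
      have e3 := Prod.mk.inj hE
      exact Prod.ext e3.2 (Prod.ext e3.1 (e1.trans e2.symm))
  have hcount : ((Wax ρ r X P η I a x).card : ℝ) ≤ (S.card : ℝ) * (CM * D ^ 7 * ρ ^ 2 / r ^ 12) := by
    have h1 : (Wax ρ r X P η I a x).card =
        ∑ p' ∈ S, ((Wax ρ r X P η I a x).filter fun t => t.2.2 = p').card := by
      rw [hS]
      exact Finset.card_eq_sum_card_image _ _
    rw [h1]
    push_cast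
    calc ∑ p' ∈ S, (((Wax ρ r X P η I a x).filter fun t => t.2.2 = p').card : ℝ)
        ≤ ∑ _p' ∈ S, (CM * D ^ 7 * ρ ^ 2 / r ^ 12) := Finset.sum_le_sum hfib
      _ = (S.card : ℝ) * (CM * D ^ 7 * ρ ^ 2 / r ^ 12) := by
        rw [Finset.sum_const, nsmul_eq_mul]
  have hr12 : 0 < r ^ 12 := by positivity
  have hSl : ρ * r ^ 12 ≤ C2 * D ^ 16 * (S.card : ℝ) := by
    have h2 : ρ ^ 3 ≤ C₁ * D ^ 9 * ((S.card : ℝ) * (CM * D ^ 7 * ρ ^ 2 / r ^ 12)) :=
      hW.trans (mul_le_mul_of_nonneg_left hcount (by positivity))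
    have h3 : C₁ * D ^ 9 * ((S.card : ℝ) * (CM * D ^ 7 * ρ ^ 2 / r ^ 12)) =
        (C2 * D ^ 16 * (S.card : ℝ)) * ρ ^ 2 / r ^ 12 := by
      rw [hC2]; field_simp
    rw [h3, le_div_iff₀ hr12] at h2
    have h4 : (ρ * r ^ 12) * ρ ^ 2 ≤ (C2 * D ^ 16 * (S.card : ℝ)) * ρ ^ 2 := by linarith
    exact le_of_mul_le_mul_right h4 (by positivity)
  have hSpos : 0 < (S.card : ℝ) := by
    have h1 : 0 < ρ * r ^ 12 := by positivity
    have h2 : 0 < C2 * D ^ 16 * (S.card : ℝ) := lt_of_lt_of_le h1 hSl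
    exact (mul_pos_iff_of_pos_left (by positivity)).1 h2
  -- members of S
  have hmem : ∀ p' ∈ S, ∃ t : ι × Z 2 × ι, GW ρ r X P η I a t.1 t.2.1 t.2.2 x ∧ t.2.2 = p' := by
    intro p' hp'
    obtain ⟨t, ht, hE⟩ := Finset.mem_image.1 hp'
    exact ⟨t, (Finset.mem_filter.1 ht).2, hE⟩
  have hSne : S.Nonempty := Finset.card_pos.1 (by exact_mod_cast hSpos)
  obtain ⟨p1, hp1⟩ := hSne
  obtain ⟨t1, ht1, hE1⟩ := hmem p1 hp1
  have hx : x ∈ X := ht1.hx
  set s : ℝ := r ^ 12 / (4 * C2 * D ^ 17) with hs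
  have hKs : K⁻¹ ≤ s := by
    rw [hs, inv_eq_one_div, div_le_div_iff₀ hK0 (by positivity)]
    linarith
  have hPC : ∀ η₀ : E 2, ((PC P I η x η₀ s).card : ℝ) ≤ (S.card : ℝ) / 4 := by
    intro η₀
    refine (hcf.h4 x hx η₀ s hKs).trans ?_
    have h5 : D * s * ρ = (ρ * r ^ 12) / (4 * C2 * D ^ 16) := by
      rw [hs]; field_simp
    rw [h5, div_le_div_iff₀ (by positivity) (by norm_num)]
    nlinarith
  have hout : ∀ p ∈ S, ∀ η₀ : E 2, p ∉ PC P I η x η₀ s → s < ‖η p - η₀‖ := by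
    intro p hp η₀ hn
    obtain ⟨t, ht, hE⟩ := hmem p hp
    by_contra hcon
    push Not at hcon
    apply hn
    unfold PC
    rw [Finset.mem_filter]
    have hI := ht.Ixp'
    have hP := ht.hp'
    rw [hE] at hI hP
    exact ⟨hP, hI, hcon⟩
  -- second
  have hp2 : ∃ p2 ∈ S, p2 ∉ PC P I η x (η p1) s := by
    by_contra hcon
    push Not at hcon
    have h6 : (S.card : ℝ) ≤ ((PC P I η x (η p1) s).card : ℝ) := by
      exact_mod_cast Finset.card_le_card hcon
    have := hPC (η p1)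
    linarith
  obtain ⟨p2, hp2, hn2⟩ := hp2
  have hp3 : ∃ p3 ∈ S, p3 ∉ PC P I η x (η p1) s ∧ p3 ∉ PC P I η x (η p2) s := by
    by_contra hcon
    push Not at hcon
    have h6 : S ⊆ PC P I η x (η p1) s ∪ PC P I η x (η p2) s := by
      intro p hp
      rw [Finset.mem_union]
      by_cases hq : p ∈ PC P I η x (η p1) s
      · exact Or.inl hq
      · exact Or.inr (hcon p hp hq)
    have h7 : (S.card : ℝ) ≤ ((PC P I η x (η p1) s).card : ℝ) + ((PC P I η x (η p2) s).card : ℝ) := by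
      exact_mod_cast (Finset.card_le_card h6).trans (Finset.card_union_le _ _)
    have := hPC (η p1)
    have := hPC (η p2)
    linarith
  obtain ⟨p3, hp3, hn31, hn32⟩ := hp3
  obtain ⟨t2, ht2, hE2⟩ := hmem p2 hp2
  obtain ⟨t3, ht3, hE3⟩ := hmem p3 hp3
  have hfin : ∀ v : ℝ, s < v → r ^ 12 ≤ 4 * C2 * D ^ 17 * v := by
    intro v hv
    rw [hs, div_lt_iff₀ (by positivity)] at hv
    linarith
  refine ⟨t1, t2, t3, ht1, ht2, ht3, ?_, ?_, ?_⟩
  · rw [hE1, hE2, norm_sub_rev]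
    exact hfin _ (hout p2 hp2 _ hn2)
  · rw [hE1, hE3, norm_sub_rev]
    exact hfin _ (hout p3 hp3 _ hn31)
  · rw [hE2, hE3, norm_sub_rev]
    exact hfin _ (hout p3 hp3 _ hn32)

end Pool.Agent.H33.EL
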