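import Pool.Agent.H91.EL.Targets

/-!
Row WLB of elm_modules: lower bound for the number of good walks.
-/

set_option autoImplicit false

namespace Pool.Agent.H33.EL

open Pool.Agent.H83.G Pool.Agent.H91.EL
open scoped RealInnerProductSpace

/-- a sum is at least the number of good terms times their lower bound -/
theorem wlb_sum {α : Type*} (s : Finset α) (good : α → Prop) [DecidablePred good]
    (f : α → ℝ) (c m : ℝ) (hc : 0 ≤ c) (hg : ∀ i ∈ s, good i → c ≤ f i) (h0 : ∀ i ∈ s, 0 ≤ f i)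
    (hm : m ≤ ((s.filter good).card : ℝ)) : m * c ≤ ∑ i ∈ s, f i := by
  have h1 : ∑ i ∈ s.filter good, f i ≤ ∑ i ∈ s, f i :=
    Finset.sum_le_sum_of_subset_of_nonneg (Finset.filter_subset _ _) (fun i hi _ => h0 i hi)
  have h2 : ∑ _i ∈ s.filter good, c ≤ ∑ i ∈ s.filter good, f i := by
    refine Finset.sum_le_sum fun i hi => ?_
    have h3 := Finset.mem_filter.1 hi
    exact hg i h3.1 h3.2
  rw [Finset.sum_const, nsmul_eq_mul] at h2
  have h4 : m * c ≤ ((s.filter good).card : ℝ) * c := mul_le_mul_of_nonneg_right hm hc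
  linarith

/-- the number of elements of a filtered product of five sets -/
theorem wlb_card {α β : Type*} (X : Finset α) (P : Finset β) (q : α → β → α → β → α → Prop)
    [∀ a p y p' x, Decidable (q a p y p' x)] :
    ((((X ×ˢ P ×ˢ X ×ˢ P ×ˢ X).filter
      fun t => q t.1 t.2.1 t.2.2.1 t.2.2.2.1 t.2.2.2.2).card : ℕ) : ℝ)
      = ∑ a ∈ X, ∑ p ∈ P, ∑ y ∈ X, ∑ p' ∈ P, ((X.filter fun x => q a p y p' x).card : ℝ) := by
  rw [Finset.card_filter]
  simp only [Finset.sum_product, Finset.card_filter]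
  push_cast
  rfl

theorem pf_WLB (hPL1 : T_PL1) : T_WLB := by
  classical
  obtain ⟨C0, hC0, h⟩ := hPL1
  refine ⟨2 * C0 + 4, by linarith, ?_⟩
  intro ι ρ D K r X P η I hcf hKr hCr hrρ
  have hD := hcf.one_le_D
  have hDK := hcf.D_le_K
  have hKρ := hcf.K_le
  have hρ : 1 ≤ ρ := by linarith
  have hK0 : 0 < K := by linarith
  have hr0 : 0 < r := lt_of_lt_of_le (inv_pos.2 hK0) hKr
  have hD0 : 0 < D := by linarith
  have hρ0 : 0 < ρ := by linarith
  have hD2 : 1 ≤ D ^ 2 := one_le_pow₀ hD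
  have hD4 : D ^ 2 ≤ D ^ 4 := pow_le_pow_right₀ hD (by norm_num)
  have hD4' : 0 < D ^ 4 := by positivity
  have hr1 : 2 * (C0 * D ^ 4 * r) ≤ 1 := by
    have : 0 ≤ 4 * (D ^ 4 * r) := by positivity
    nlinarith
  have hr2 : 2 * (D ^ 2 * r) ≤ 1 := by
    have h1 : D ^ 2 * r ≤ D ^ 4 * r := mul_le_mul_of_nonneg_right hD4 hr0.le
    have h2 : 0 ≤ C0 * (D ^ 4 * r) := by positivity
    nlinarith
  -- points of a plank far from a given `w`
  have hfar : ∀ p ∈ P, ∀ t : ℝ, ρ ^ 4 / (2 * D) ≤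
      ((X.filter fun y => I y p ∧ r * ρ ^ 2 ≤ |y.2.2 - t|).card : ℝ) := by
    intro p hp t
    have h3 := hcf.h3 p hp
    set Y1 := X.filter fun y => I y p ∧ r * ρ ^ 2 ≤ |y.2.2 - t| with hY1
    set Y2 := X.filter fun y => I y p ∧ |y.2.2 - t| ≤ r * ρ ^ 2 with hY2
    have hsub : XP X I p ⊆ Y1 ∪ Y2 := by
      intro z hz
      have hz' := Finset.mem_filter.1 hz
      rw [Finset.mem_union, hY1, hY2, Finset.mem_filter, Finset.mem_filter]
      rcases le_total (r * ρ ^ 2) |z.2.2 - t| with h5 | h5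
      · exact Or.inl ⟨hz'.1, hz'.2, h5⟩
      · exact Or.inr ⟨hz'.1, hz'.2, h5⟩
    have hcard : ((XP X I p).card : ℝ) ≤ (Y1.card : ℝ) + (Y2.card : ℝ) := by
      exact_mod_cast (Finset.card_le_card hsub).trans (Finset.card_union_le _ _)
    have hY2c : (Y2.card : ℝ) ≤ C0 * D ^ 3 * ρ ^ 2 * (r * ρ ^ 2) := by
      refine h ρ D (r * ρ ^ 2) t (η p) Y2 hρ hD hrρ (hcf.eta p hp) ?_ ?_ ?_
      · intro z hz z' hz' hne
        exact hcf.sep z (Finset.mem_filter.1 hz).1 z' (Finset.mem_filter.1 hz').1 hne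
      · intro z hz z' hz'
        have a := Finset.mem_filter.1 hz
        have b := Finset.mem_filter.1 hz'
        exact hcf.h0 p hp z a.1 z' b.1 a.2.1 b.2.1
      · intro z hz
        exact (Finset.mem_filter.1 hz).2.2
    rw [div_le_iff₀ (by positivity)]
    have h6 : D * ((XP X I p).card : ℝ) ≤ D * ((Y1.card : ℝ) + (Y2.card : ℝ)) :=
      mul_le_mul_of_nonneg_left hcard hD0.le
    have h7 : D * (Y2.card : ℝ) ≤ D * (C0 * D ^ 3 * ρ ^ 2 * (r * ρ ^ 2)) :=
      mul_le_mul_of_nonneg_left hY2c hD0.le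
    have h8 : D * (C0 * D ^ 3 * ρ ^ 2 * (r * ρ ^ 2)) = (C0 * D ^ 4 * r) * ρ ^ 4 := by ring
    have h9 : (C0 * D ^ 4 * r) * ρ ^ 4 ≤ (1 / 2) * ρ ^ 4 :=
      mul_le_mul_of_nonneg_right (by linarith) (by positivity)
    nlinarith
  -- planks far from a given direction
  have hang : ∀ y ∈ X, ∀ p, ρ / (2 * D) ≤
      ((P.filter fun p' => I y p' ∧ r ≤ ‖η p - η p'‖).card : ℝ) := by
    intro y hy p
    have h2 := hcf.h2 y hy
    have h4 := hcf.h4 y hy (η p) r hKr
    set P1 := P.filter fun p' => I y p' ∧ r ≤ ‖η p - η p'‖ with hP1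
    have hsub : PZ P I y ⊆ P1 ∪ PC P I η y (η p) r := by
      intro z hz
      have hz' := Finset.mem_filter.1 hz
      rw [Finset.mem_union, hP1, Finset.mem_filter]
      rcases le_total r ‖η p - η z‖ with h5 | h5
      · exact Or.inl ⟨hz'.1, hz'.2, h5⟩
      · refine Or.inr ?_
        unfold PC
        rw [Finset.mem_filter]
        exact ⟨hz'.1, hz'.2, by rw [norm_sub_rev]; exact h5⟩
    have hcard : ((PZ P I y).card : ℝ) ≤ (P1.card : ℝ) + ((PC P I η y (η p) r).card : ℝ) := by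
      exact_mod_cast (Finset.card_le_card hsub).trans (Finset.card_union_le _ _)
    rw [div_le_iff₀ (by positivity)]
    have h6 : D * ((PZ P I y).card : ℝ) ≤ D * ((P1.card : ℝ) + (D * r * ρ)) :=
      mul_le_mul_of_nonneg_left (by linarith) hD0.le
    have h9 : (D ^ 2 * r) * ρ ≤ (1 / 2) * ρ :=
      mul_le_mul_of_nonneg_right (by linarith) (by positivity)
    nlinarith
  unfold WK
  rw [wlb_card X P (fun a p y p' x => GW ρ r X P η I a p y p' x)]
  have hA : (X.card : ℝ) * ((ρ / D) * ((ρ ^ 4 / (2 * D)) * ((ρ / (2 * D)) * (ρ ^ 4 / (2 * D)))))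
      ≤ ∑ a ∈ X, ∑ p ∈ P, ∑ y ∈ X, ∑ p' ∈ P,
        ((X.filter fun x => GW ρ r X P η I a p y p' x).card : ℝ) := by
    refine wlb_sum X (fun _ => True) _ _ _ (by positivity) ?_ ?_ (by simp)
    · intro a ha _
      refine wlb_sum P (fun p => I a p) _ _ _ (by positivity) ?_ ?_ ?_
      · intro p hp hap
        refine wlb_sum X (fun y => I y p ∧ r * ρ ^ 2 ≤ |y.2.2 - a.2.2|) _ _ _ (by positivity)
          ?_ ?_ (hfar p hp a.2.2)
        · intro y hy hyp
          refine wlb_sum P (fun p' => I y p' ∧ r ≤ ‖η p - η p'‖) _ _ _ (by positivity)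
            ?_ ?_ (hang y hy p)
          · intro p' hp' hyp'
            refine (hfar p' hp' y.2.2).trans ?_
            have hs : (X.filter fun x => I x p' ∧ r * ρ ^ 2 ≤ |x.2.2 - y.2.2|) ⊆
                (X.filter fun x => GW ρ r X P η I a p y p' x) := by
              intro x hx
              have hx' := Finset.mem_filter.1 hx
              rw [Finset.mem_filter]
              exact ⟨hx'.1, { ha := ha, hp := hp, hy := hy, hp' := hp', hx := hx'.1,
                              Iap := hap, Iyp := hyp.1, Iyp' := hyp'.1, Ixp' := hx'.2.1,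
                              w2 := hx'.2.2, ang := hyp'.2, w1 := hyp.2 }⟩
            exact_mod_cast Finset.card_le_card hs
          · intro i _; positivity
        · intro i _
          exact Finset.sum_nonneg fun _ _ => by positivity
      · intro i _
        exact Finset.sum_nonneg fun _ _ => Finset.sum_nonneg fun _ _ => by positivity
      · rw [div_le_iff₀ hD0]
        have := hcf.h2 a ha
        unfold PZ at this
        linarith
    · intro i _
      exact Finset.sum_nonneg fun _ _ => Finset.sum_nonneg fun _ _ =>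
        Finset.sum_nonneg fun _ _ => by positivity
  have hE : (X.card : ℝ) * ((ρ / D) * ((ρ ^ 4 / (2 * D)) * ((ρ / (2 * D)) * (ρ ^ 4 / (2 * D)))))
      = (X.card : ℝ) * ρ ^ 10 / (8 * D ^ 4) := by
    field_simp
    ring
  rw [hE, div_le_iff₀ (by positivity)] at hA
  linarith

end Pool.Agent.H33.EL
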